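import Pool.Agent.H95.Kr

set_option autoImplicit false

open Pool.Agent.H95.Kr

theorem Pool.Agent.Results.MP_a29c66_gt.NotK.result :
    ∃ (A B : Type) (_ : TopologicalSpace A) (_ : TopologicalSpace B),
      SequentialSpace A ∧ SequentialSpace B ∧ IsKRSpace (A × B) ∧ ¬ IsKSpace (A × B) := by
  obtain ⟨𝒜, h1, h2, h3, h4⟩ := exists_mad
  exact ⟨X 𝒜, S, inferInstance, inferInstance, X_seq h2, inferInstance, is_kr h1 h2 h3, not_k h4⟩
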